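import Mathlib

set_option autoImplicit false

namespace Pool.Agent.Results.MP_3bb15c_gt.Counter

open Set Filter Topology TopologicalSpace

/-- s-completeness; the natural order is `x ≤ y ↔ m x y = x` -/
def SComplete {Y : Type} [TopologicalSpace Y] (m : Y → Y → Y) : Prop :=
  (∀ S : Set Y, S.Nonempty → (∀ x ∈ S, ∀ y ∈ S, m x y ∈ S) → ∃ a, (∀ s ∈ S, m a s = a) ∧
    (∀ b, (∀ s ∈ S, m b s = b) → m b a = b) ∧ a ∈ closure {x | ∃ s ∈ S, m s x = s}) ∧
  ∀ C : Set Y, C.Nonempty → (∀ x ∈ C, ∀ y ∈ C, m x y = x ∨ m x y = y) → ∃ a, (∀ c ∈ C, m c a = c) ∧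
    (∀ b, (∀ c ∈ C, m c b = c) → m a b = a) ∧ a ∈ closure {x | ∃ c ∈ C, m x c = x}

structure Y where
  s : Set ℕ
  f : Bool
  h : f = true → s.Finite

theorem Y.ext {x y : Y} (h1 : x.s = y.s) (h2 : x.f = y.f) : x = y := by
  cases x; cases y; congr

instance : Mul Y := ⟨fun x y => ⟨x.s ∪ y.s, x.f && y.f, fun h =>
  (x.h (Bool.and_eq_true_iff.1 h).1).union (y.h (Bool.and_eq_true_iff.1 h).2)⟩⟩

@[simp] theorem mul_s (x y : Y) : (x * y).s = x.s ∪ y.s := rfl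
@[simp] theorem mul_f (x y : Y) : (x * y).f = (x.f && y.f) := rfl

instance : CommSemigroup Y where
  mul_assoc _ _ _ := Y.ext (union_assoc _ _ _) (Bool.and_assoc _ _ _)
  mul_comm _ _ := Y.ext (union_comm _ _) (Bool.and_comm _ _)

theorem mul_eq {x y : Y} : x * y = x ↔ y.s ⊆ x.s ∧ (x.f = true → y.f = true) := by
  refine ⟨fun h => ⟨union_eq_left.1 (congrArg Y.s h), ?_⟩, fun h => Y.ext (union_eq_left.2 h.1) ?_⟩
  · have := congrArg Y.f h
    revert this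
    cases hx : x.f <;> simp [hx]
  · have := h.2
    revert this
    cases hx : x.f <;> simp [hx]

def one : Y := ⟨∅, true, fun _ => finite_empty⟩

def I (k : ℕ) : Set ℕ := Icc k (2 * k)
def P (K j : ℕ) : Set Y := {x | x.f = true ∧ ∀ k ≥ K, 2 ^ j * (x.s ∩ I k).ncard ≤ k}
def Q (K : ℕ) : Set Y := {x | (∃ n ≥ K, I n ⊆ x.s) ∨ (x.s.Finite ∧ x.f = false)}
def R (N : ℕ) : Set Y := {x | (x.s ⊆ Iio N ∧ x.f = false) ∨ ∃ n ≥ N, (∀ a ∈ Ico N n, a ∉ x.s) ∧ I n ⊆ x.s}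
def E (a : ℕ) (b : Prop) : Set Y := {x | a ∈ x.s ↔ b}

theorem I_fin (k : ℕ) : (I k).Finite := finite_Icc _ _
theorem mem_I (k : ℕ) : k ∈ I k := ⟨le_rfl, by omega⟩

instance : TopologicalSpace Y := generateFrom {S | (∃ a b, S = E a b) ∨ (∃ K j, S = P K j) ∨ ∃ K, S = Q K}

theorem E_open (a : ℕ) (b : Prop) : IsOpen (E a b) := isOpen_generateFrom_of_mem (Or.inl ⟨a, b, rfl⟩)
theorem P_open (K j : ℕ) : IsOpen (P K j) := isOpen_generateFrom_of_mem (Or.inr (Or.inl ⟨K, j, rfl⟩))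
theorem Q_open (K : ℕ) : IsOpen (Q K) := isOpen_generateFrom_of_mem (Or.inr (Or.inr ⟨K, rfl⟩))

theorem agree (x : Y) (N : ℕ) : ∀ᶠ y in 𝓝 x, ∀ a ∈ Iic N, a ∈ y.s ↔ a ∈ x.s :=
  (eventually_all_finite (finite_Iic N)).2 fun a _ => (E_open a _).mem_nhds Iff.rfl

theorem mem_P {x : Y} (hx : x.f = true) {K : ℕ} (hK : x.s ⊆ Iio K) (j : ℕ) : x ∈ P K j := ⟨hx, fun k hk => by
  rw [show x.s ∩ I k = ∅ from eq_empty_of_forall_notMem fun a h => (hK h.1).not_ge (hk.trans h.2.1)]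
  simp⟩

theorem bd {s : Set ℕ} (h : s.Finite) (M : ℕ) : ∃ K ≥ M, s ⊆ Iio K := by
  obtain ⟨K, hK⟩ := h.bddAbove
  exact ⟨K + M + 1, by omega, fun a ha => by have := hK ha; simp only [mem_Iio]; omega⟩

theorem PQ (K : ℕ) : Disjoint (P K 0) (Q K) := disjoint_left.2 fun x h1 h2 => by
  rcases h2 with ⟨n, hn, h2⟩ | h2
  · have := h1.2 n hn
    rw [inter_eq_right.2 h2, I, ncard_Icc_nat] at this
    omega
  · simpa [h1.1] using h2.2

instance : T2Space Y := ⟨fun x y h => by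
  by_cases h1 : x.s = y.s
  · have h2 : ∀ x y : Y, x.s = y.s → x.f = true → y.f = false →
        ∃ u v : Set Y, IsOpen u ∧ IsOpen v ∧ x ∈ u ∧ y ∈ v ∧ Disjoint u v := fun x y h1 hx hy => by
      obtain ⟨K, -, hK⟩ := bd (x.h hx) 0
      exact ⟨_, _, P_open K 0, Q_open K, mem_P hx hK 0, Or.inr ⟨h1 ▸ x.h hx, hy⟩, PQ K⟩
    have h3 : x.f ≠ y.f := fun h2 => h (Y.ext h1 h2)
    cases hx : x.f
    · obtain ⟨u, v, h4, h5, h6, h7, h8⟩ := h2 y x h1.symm (by simpa [hx] using h3) hx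
      exact ⟨v, u, h5, h4, h7, h6, h8.symm⟩
    · exact h2 x y h1 hx (by simpa [hx] using h3)
  · obtain ⟨a, ha⟩ := not_forall.1 (mt Set.ext h1)
    exact ⟨_, _, E_open a _, E_open a _, Iff.rfl, Iff.rfl, disjoint_left.2 fun z h2 h3 => ha (h2.symm.trans h3)⟩⟩

theorem agree2 (x y : Y) (N : ℕ) : ∀ᶠ p : Y × Y in 𝓝 (x, y), ∀ a ∈ Iic N, a ∈ (p.1 * p.2).s ↔ a ∈ (x * y).s := by
  filter_upwards [continuous_fst.continuousAt.eventually (agree x N), continuous_snd.continuousAt.eventually (agree y N)]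
    with p h1 h2 a ha
  exact or_congr (h1 a ha) (h2 a ha)

instance : ContinuousMul Y := ⟨continuous_generateFrom_iff.2 (by
  rintro _ (⟨a, b, rfl⟩ | ⟨K, j, rfl⟩ | ⟨K, rfl⟩) <;> refine isOpen_iff_mem_nhds.2 fun ⟨x, y⟩ h => ?_
  · exact (agree2 x y a).mono fun p hp => (hp a (mem_Iic.2 le_rfl)).trans h
  · obtain ⟨M, -, hM⟩ := bd ((x * y).h h.1) 0
    have h1 := Bool.and_eq_true_iff.1 h.1
    filter_upwards [agree2 x y (2 * M), prod_mem_nhds
      ((P_open M (j + 1)).mem_nhds (mem_P h1.1 (subset_union_left.trans hM) _))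
      ((P_open M (j + 1)).mem_nhds (mem_P h1.2 (subset_union_right.trans hM) _))] with p h2 h3
    refine ⟨Bool.and_eq_true_iff.2 ⟨h3.1.1, h3.2.1⟩, fun k hk => ?_⟩
    rcases le_total k M with h4 | h4
    · rw [show (p.1 * p.2).s ∩ I k = (x * y).s ∩ I k from Set.ext fun a => and_congr_left fun ha =>
        h2 a (ha.2.trans (by omega))]
      exact h.2 k hk
    · have h5 := h3.1.2 k h4
      have h6 := h3.2.2 k h4
      have h7 := ncard_union_le (p.1.s ∩ I k) (p.2.s ∩ I k)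
      rw [mul_s, union_inter_distrib_right]
      rw [pow_succ] at h5 h6
      nlinarith [Nat.mul_le_mul_left (2 ^ j) h7]
  · rcases h with ⟨n, hn, h⟩ | h
    · exact (agree2 x y (2 * n)).mono fun p hp => Or.inl ⟨n, hn, fun a ha => (hp a ha.2).2 (h ha)⟩
    · have h1 : ∀ z : Y, z.s.Finite → ∀ᶠ w in 𝓝 z, (∃ n ≥ K, I n ⊆ w.s) ∨ (w.s.Finite ∧ w.f = z.f) := fun z hz => by
        cases hf : z.f
        · exact (Q_open K).mem_nhds (Or.inr ⟨hz, hf⟩)
        · obtain ⟨M, -, hM⟩ := bd hz 0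
          exact mem_of_superset ((P_open M 0).mem_nhds (mem_P hf hM 0)) fun w hw => Or.inr ⟨w.h hw.1, hw.1⟩
      filter_upwards [prod_mem_nhds (h1 x (h.1.subset subset_union_left)) (h1 y (h.1.subset subset_union_right))]
        with p ⟨h2, h3⟩
      rcases h2 with ⟨n, hn, h2⟩ | h2
      · exact Or.inl ⟨n, hn, h2.trans subset_union_left⟩
      rcases h3 with ⟨n, hn, h3⟩ | h3
      · exact Or.inl ⟨n, hn, h3.trans subset_union_right⟩
      · exact Or.inr ⟨h2.1.union h3.1, by rw [mul_f, h2.2, h3.2]; exact h.2⟩)⟩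

def X : Type := {y : Y // y ≠ one}

def m (x y : X) : X := ⟨x.1 * y.1, fun h => x.2 (Y.ext (union_empty_iff.1 (congrArg Y.s h)).1
  (Bool.and_eq_true_iff.1 (congrArg Y.f h)).1)⟩

def val (x : X) : Y := x.1

def gen : Set (Set X) := {S | (∃ a b, S = val ⁻¹' E a b) ∨ (∃ x : X, x.1.f = true ∧ S = {x}) ∨
  ∃ N, S = val ⁻¹' R N}

instance : TopologicalSpace X := generateFrom gen

theorem iso {x : X} (h : x.1.f = true) : {x} ∈ 𝓝 x :=
  (isOpen_generateFrom_of_mem (g := gen) (Or.inr (Or.inl ⟨x, h, rfl⟩))).mem_nhds rfl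

theorem R_nhds {x : X} {N : ℕ} (h : x.1 ∈ R N) : ∀ᶠ y in 𝓝 x, y.1 ∈ R N :=
  (isOpen_generateFrom_of_mem (g := gen) (Or.inr (Or.inr ⟨N, rfl⟩))).mem_nhds h

theorem agreeX (x : X) (N : ℕ) : ∀ᶠ y in 𝓝 x, ∀ a ∈ Iic N, a ∈ y.1.s ↔ a ∈ x.1.s :=
  (eventually_all_finite (finite_Iic N)).2 fun a _ =>
    (isOpen_generateFrom_of_mem (g := gen) (Or.inl ⟨a, _, rfl⟩)).mem_nhds Iff.rfl

theorem val_cont : Continuous val := continuous_generateFrom_iff.2 (by
  rintro _ (⟨a, b, rfl⟩ | ⟨K, j, rfl⟩ | ⟨K, rfl⟩) <;> refine isOpen_iff_mem_nhds.2 fun x h => ?_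
  · exact (agreeX x a).mono fun p hp => (hp a (mem_Iic.2 le_rfl)).trans h
  · exact mem_of_superset (iso h.1) fun y hy => hy ▸ h
  · rcases h with ⟨n, hn, h⟩ | h
    · exact (agreeX x (2 * n)).mono fun p hp => Or.inl ⟨n, hn, fun a ha => (hp a ha.2).2 (h ha)⟩
    · obtain ⟨N, hN, h1⟩ := bd h.1 K
      exact (R_nhds (Or.inl ⟨h1, h.2⟩)).mono fun y hy => hy.elim
        (fun h => Or.inr ⟨(finite_Iio N).subset h.1, h.2⟩) fun ⟨n, hn, h⟩ => Or.inl ⟨n, hN.le.trans hn, h.2⟩)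

instance : T2Space X := T2Space.of_injective_continuous (f := val) Subtype.val_injective val_cont

theorem blk {ι : Type*} {F : Filter ι} {f : ι → Y} {x : Y} (h : ∀ N, ∀ᶠ i in F, ∀ a ∈ Iic N, a ∈ (f i).s ↔ a ∈ x.s)
    {N n : ℕ} (hn : n ≥ N) (h1 : ∀ a ∈ Ico N n, a ∉ x.s) (h2 : I n ⊆ x.s) : ∀ᶠ i in F, f i ∈ R N :=
  (h (2 * n)).mono fun _ hp => Or.inr ⟨n, hn, fun a ha h3 => h1 a ha ((hp a (ha.2.le.trans (by omega))).1 h3),
    fun a ha => (hp a ha.2).2 (h2 ha)⟩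

instance : RegularSpace X := (regularSpace_generateFrom (s := gen) rfl).2 fun t ht a ha => by
  have h : IsClosed t := by
    rcases ht with ⟨a, b, rfl⟩ | ⟨x, -, rfl⟩ | ⟨N, rfl⟩
    · exact isOpen_compl_iff.1 (isOpen_iff_mem_nhds.2 fun x h => (agreeX x a).mono fun p hp h1 =>
        h ((hp a (mem_Iic.2 le_rfl)).symm.trans h1))
    · exact isClosed_singleton
    · refine isOpen_compl_iff.1 (isOpen_iff_mem_nhds.2 fun x h => ?_)
      cases hf : x.1.f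
      · obtain ⟨b, h1, h2⟩ := not_subset.1 fun h1 => h (Or.inl ⟨h1, hf⟩)
        filter_upwards [agreeX x (2 * b)] with y hy
        have h3 := (hy b (by simp only [mem_Iic]; omega)).2 h1
        rintro (h4 | ⟨n, hn, h4, h5⟩)
        · exact h2 (h4.1 h3)
        · have h6 : n ≤ b := not_lt.1 fun h6 => h4 b ⟨not_lt.1 h2, h6⟩ h3
          exact h (Or.inr ⟨n, hn, fun a ha h7 => h4 a ha ((hy a (ha.2.le.trans (by omega))).2 h7),
            fun a ha => (hy a (ha.2.trans (by omega))).1 (h5 ha)⟩)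
      · exact mem_of_superset (iso hf) fun y hy => hy ▸ h
  rw [h.isOpen_compl.nhdsSet_eq, disjoint_principal_left, compl_compl]
  exact (isOpen_generateFrom_of_mem ht).mem_nhds ha

theorem cont : Continuous fun p : X × X => m p.1 p.2 := continuous_generateFrom_iff.2 (by
  have h0 : ∀ (x y : X) N, ∀ᶠ p : X × X in 𝓝 (x, y), ∀ a ∈ Iic N, a ∈ (p.1.1 * p.2.1).s ↔ a ∈ (x.1 * y.1).s :=
    fun x y N => ((val_cont.prodMap val_cont).tendsto (x, y)).eventually (agree2 x.1 y.1 N)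
  rintro _ (⟨a, b, rfl⟩ | ⟨z, hz, rfl⟩ | ⟨N, rfl⟩) <;> refine isOpen_iff_mem_nhds.2 fun ⟨x, y⟩ h => ?_
  · exact (h0 x y a).mono fun p hp => (hp a (mem_Iic.2 le_rfl)).trans h
  · obtain rfl : m x y = z := h
    have h1 := Bool.and_eq_true_iff.1 hz
    exact mem_of_superset (prod_mem_nhds (iso h1.1) (iso h1.2)) fun p hp => congrArg₂ m hp.1 hp.2
  · rcases h with h | ⟨n, hn, h1, h2⟩
    · have h1 : ∀ z : X, z.1.s ⊆ Iio N → ∀ᶠ w in 𝓝 z, (w.1.s ⊆ Iio N ∧ w.1.f = z.1.f) ∨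
          ∃ n ≥ N, (∀ a ∈ Ico N n, a ∉ w.1.s) ∧ I n ⊆ w.1.s := fun z hz => by
        cases hf : z.1.f
        · exact R_nhds (Or.inl ⟨hz, hf⟩)
        · exact mem_of_superset (iso hf) fun w hw => Or.inl (hw ▸ ⟨hz, hf⟩)
      filter_upwards [prod_mem_nhds (h1 x (subset_union_left.trans h.1)) (h1 y (subset_union_right.trans h.1))]
        with p ⟨h2, h3⟩
      rcases h2 with h2 | ⟨n, hn, h2, h4⟩ <;> rcases h3 with h3 | ⟨k, hk, h3, h5⟩
      · exact Or.inl ⟨union_subset h2.1 h3.1, (congrArg₂ and h2.2 h3.2).trans h.2⟩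
      · exact Or.inr ⟨k, hk, fun a ha h => h.elim (fun h => (h2.1 h).not_ge ha.1) (h3 a ha), h5.trans subset_union_right⟩
      · exact Or.inr ⟨n, hn, fun a ha h => h.elim (h2 a ha) fun h => (h3.1 h).not_ge ha.1, h4.trans subset_union_left⟩
      · rcases le_total n k with h6 | h6
        · exact Or.inr ⟨n, hn, fun a ha h => h.elim (h2 a ha) (h3 a ⟨ha.1, ha.2.trans_le h6⟩), h4.trans subset_union_left⟩
        · exact Or.inr ⟨k, hk, fun a ha h => h.elim (h2 a ⟨ha.1, ha.2.trans_le h6⟩) (h3 a ha), h5.trans subset_union_right⟩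
    · exact blk (h0 x y) hn h1 h2)

theorem not_closed : ¬ IsClosed (range val) := by
  intro h
  have h1 : Tendsto (fun n : ℕ => (⟨{n}, true, fun _ => finite_singleton n⟩ : Y)) atTop (𝓝 one) := by
    refine tendsto_nhds_generateFrom_iff.2 ?_
    rintro _ (⟨a, b, rfl⟩ | ⟨K, j, rfl⟩ | ⟨K, rfl⟩) h
    · exact (eventually_gt_atTop a).mono fun n hn => (iff_of_false hn.ne id).trans h
    · refine (eventually_ge_atTop (2 * 2 ^ j)).mono fun n hn => ⟨rfl, fun k _ => ?_⟩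
      by_cases h2 : n ∈ I k
      · have := h2.2
        rw [inter_eq_left.2 (singleton_subset_iff.2 h2), ncard_singleton]
        omega
      · rw [singleton_inter_eq_empty.2 h2]
        simp
    · exact (disjoint_left.1 (PQ K) (mem_P rfl (empty_subset _) 0) h).elim
  obtain ⟨x, hx⟩ := h.mem_of_tendsto h1 (Eventually.of_forall fun n =>
    ⟨⟨_, fun h => singleton_ne_empty n (congrArg Y.s h)⟩, rfl⟩)
  exact x.2 hx

theorem m_eq {x y : X} : m x y = x ↔ y.1.s ⊆ x.1.s ∧ (x.1.f = true → y.1.f = true) := Subtype.ext_iff.trans mul_eq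

def fl (s : Set ℕ) : X := ⟨⟨s, false, fun h => by simp at h⟩, fun h => by simpa [one] using congrArg Y.f h⟩

theorem mem_cl {s : Set ℕ} {A : Set X} (h : ∀ N, ∃ x ∈ A, (∀ a < N, a ∈ x.1.s ↔ a ∈ s) ∧ (s ⊆ Iio N → Ici N ⊆ x.1.s)) :
    fl s ∈ closure A := by
  choose x h1 h2 h3 using h
  refine mem_closure_of_tendsto (b := atTop) ?_ (Eventually.of_forall h1)
  have h4 : ∀ N, ∀ᶠ i in atTop, ∀ a ∈ Iic N, a ∈ (x i).1.s ↔ a ∈ (fl s).1.s := fun N =>
    (eventually_gt_atTop N).mono fun i hi a ha => h2 i a (lt_of_le_of_lt ha hi)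
  refine tendsto_nhds_generateFrom_iff.2 ?_
  rintro _ (⟨a, b, rfl⟩ | ⟨z, hz, rfl⟩ | ⟨N, rfl⟩) h
  · exact (h4 a).mono fun p hp => (hp a (mem_Iic.2 le_rfl)).trans h
  · obtain rfl : fl s = z := h
    simp [fl] at hz
  · rcases h with h | ⟨n, hn, h5, h6⟩
    · exact (eventually_ge_atTop N).mono fun i hi => Or.inr ⟨i, hi, fun a ha h5 => (h.1 ((h2 i a ha.2).1 h5)).not_ge ha.1,
        fun a ha => h3 i (h.1.trans (Iio_subset_Iio hi)) ha.1⟩
    · exact blk h4 hn h5 h6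

theorem fin_X {s : Set ℕ} (hs : s.Finite) : {x : X | x.1.s ⊆ s}.Finite :=
  Finite.of_finite_image (f := fun x => (x.1.s, x.1.f)) ((hs.finite_subsets.prod finite_univ).subset (by
    rintro _ ⟨x, hx, rfl⟩
    exact ⟨hx, trivial⟩)) fun x _ y _ h => Subtype.ext (Y.ext (congrArg Prod.fst h) (congrArg Prod.snd h))

theorem dir {S : Set X} (r : X → X → Prop) (ht : ∀ a b c, r a b → r b c → r a c) (hne : S.Nonempty)
    (hd : ∀ x ∈ S, ∀ y ∈ S, ∃ z ∈ S, r x z ∧ r y z) {T : Set X} (hT : T.Finite) (hS : T ⊆ S) :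
    ∃ z ∈ S, ∀ x ∈ T, r x z := by
  induction T, hT using Set.Finite.induction_on with
  | empty => exact hne.imp fun z hz => ⟨hz, fun _ h => h.elim⟩
  | @insert a T _ _ ih =>
    obtain ⟨z, hz, h⟩ := ih ((subset_insert _ _).trans hS)
    obtain ⟨w, hw, h1, h2⟩ := hd a (hS (mem_insert _ _)) z hz
    exact ⟨w, hw, forall_mem_insert.2 ⟨h1, fun x hx => ht _ _ _ (h x hx) h2⟩⟩

theorem tr (a b c : X) (h1 : m a b = a) (h2 : m b c = b) : m a c = a :=
  m_eq.2 ⟨(m_eq.1 h2).1.trans (m_eq.1 h1).1, fun h => (m_eq.1 h2).2 ((m_eq.1 h1).2 h)⟩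

theorem idem (x : X) : m x x = x := m_eq.2 ⟨subset_rfl, id⟩

theorem comm (x y : X) : m x y = m y x := Subtype.ext (mul_comm _ _)

theorem aux (S : Set X) (N : ℕ) (p : ℕ → X → Prop) :
    ∃ T ⊆ S, T.Finite ∧ ∀ a < N, (∃ x ∈ S, p a x) → ∃ x ∈ T, p a x := by
  induction N with
  | zero => exact ⟨∅, empty_subset _, finite_empty, fun _ h => absurd h (Nat.not_lt_zero _)⟩
  | succ N ih =>
    obtain ⟨T, h1, h2, h3⟩ := ih
    by_cases h : ∃ x ∈ S, p N x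
    · obtain ⟨x, hx, h⟩ := h
      refine ⟨insert x T, insert_subset hx h1, h2.insert x, fun a ha h4 => ?_⟩
      rcases Nat.lt_succ_iff_lt_or_eq.1 ha with h5 | h5
      · exact (h3 a h5 h4).imp fun y hy => ⟨Or.inr hy.1, hy.2⟩
      · exact ⟨x, Or.inl rfl, h5 ▸ h⟩
    · exact ⟨T, h1, h2, fun a ha h4 => h3 a ((Nat.lt_succ_iff_lt_or_eq.1 ha).resolve_right fun e => h (e ▸ h4)) h4⟩

theorem sc : SComplete m := by
  refine ⟨fun S hne hS => ?_, fun C hne hC => ?_⟩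
  · have hd := @dir S (fun x z => m z x = z) (fun a b c h1 h2 => tr _ _ _ h2 h1) hne fun x hx y hy =>
      ⟨_, hS x hx y hy, m_eq.2 ⟨subset_union_left, fun h => (Bool.and_eq_true_iff.1 h).1⟩,
        m_eq.2 ⟨subset_union_right, fun h => (Bool.and_eq_true_iff.1 h).2⟩⟩
    by_cases h : (⋃ x ∈ S, x.1.s).Finite
    · obtain ⟨z, hz, h1⟩ := hd ((fin_X h).subset fun x hx => subset_biUnion_of_mem (u := fun x : X => x.1.s) hx) subset_rfl
      exact ⟨z, h1, fun b hb => hb z hz, subset_closure ⟨z, hz, idem z⟩⟩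
    · refine ⟨fl (⋃ x ∈ S, x.1.s), fun x hx => m_eq.2 ⟨subset_biUnion_of_mem (u := fun x : X => x.1.s) hx,
        fun h => by simp [fl] at h⟩, fun b hb => ?_, mem_cl fun N => ?_⟩
      · have h1 : (⋃ x ∈ S, x.1.s) ⊆ b.1.s := iUnion₂_subset fun x hx => (m_eq.1 (hb x hx)).1
        exact m_eq.2 ⟨h1, fun h2 => (h ((b.1.h h2).subset h1)).elim⟩
      · obtain ⟨T, h1, h2, h3⟩ := aux S N fun a x => a ∈ x.1.s
        obtain ⟨z, hz, h4⟩ := hd h2 h1
        exact ⟨z, ⟨z, hz, idem z⟩, fun a ha => ⟨fun h => mem_biUnion hz h, fun h => by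
          obtain ⟨x, hx, h5⟩ := h3 a ha (by simpa using h)
          exact (m_eq.1 (h4 x hx)).1 h5⟩, fun h5 => (h ((finite_Iio N).subset h5)).elim⟩
  · have hd := @dir C (fun x z => m x z = x) tr hne fun x hx y hy => (hC x hx y hy).elim
      (fun h => ⟨y, hy, h, idem y⟩) fun h => ⟨x, hx, idem x, comm x y ▸ h⟩
    by_cases h : ∃ c ∈ C, c.1.f = true
    · obtain ⟨c, hc, h⟩ := h
      obtain ⟨z, hz, h1⟩ := hd (T := {x | x ∈ C ∧ x.1.s ⊆ c.1.s}) ((fin_X (c.1.h h)).subset fun x hx => hx.2)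
        fun x hx => hx.1
      refine ⟨z, fun x hx => ?_, fun b hb => hb z hz, subset_closure ⟨z, hz, idem z⟩⟩
      rcases hC x hx c hc with h2 | h2
      · exact tr _ _ _ h2 (h1 c ⟨hc, subset_rfl⟩)
      · exact h1 x ⟨hx, (m_eq.1 (comm x c ▸ h2)).1⟩
    · refine ⟨fl (⋂ x ∈ C, x.1.s), fun x hx => m_eq.2 ⟨biInter_subset_of_mem (t := fun x : X => x.1.s) hx,
        fun h1 => (h ⟨x, hx, h1⟩).elim⟩, fun b hb => m_eq.2 ⟨subset_iInter₂ fun x hx => (m_eq.1 (hb x hx)).1,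
        fun h => by simp [fl] at h⟩, mem_cl fun N => ?_⟩
      obtain ⟨T, h1, h2, h3⟩ := aux C N fun a x => a ∉ x.1.s
      obtain ⟨z, hz, h4⟩ := hd h2 h1
      refine ⟨fl (z.1.s ∪ Ici N), ⟨z, hz, m_eq.2 ⟨subset_union_left, fun h => by simp [fl] at h⟩⟩,
        fun a ha => ⟨fun h5 => by_contra fun h6 => ?_, fun h5 => Or.inl (mem_iInter₂.1 h5 z hz)⟩,
        fun _ => subset_union_right⟩
      obtain ⟨x, hx, h7⟩ := h3 a ha (by simpa using h6)
      exact h7 ((m_eq.1 (h4 x hx)).1 (h5.resolve_right ha.not_ge))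

/-- the negated form of Q1, with a regular counterexample -/
theorem result : ∃ (X : Type) (_ : TopologicalSpace X) (m : X → X → X), T2Space X ∧ RegularSpace X ∧
    (Continuous fun p : X × X => m p.1 p.2) ∧ (∀ x y z, m (m x y) z = m x (m y z)) ∧ (∀ x y, m x y = m y x) ∧
    (∀ x, m x x = x) ∧ SComplete m ∧ ∃ (Y : Type) (_ : TopologicalSpace Y) (_ : Semigroup Y) (h : X → Y),
      ContinuousMul Y ∧ T2Space Y ∧ Continuous h ∧ (∀ x y, h (m x y) = h x * h y) ∧ ¬ IsClosed (range h) :=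
  ⟨X, inferInstance, m, inferInstance, inferInstance, cont, fun _ _ _ => Subtype.ext (mul_assoc _ _ _), comm, idem, sc,
    Y, inferInstance, inferInstance, val, inferInstance, inferInstance, val_cont, fun _ _ => rfl, not_closed⟩

end Pool.Agent.Results.MP_3bb15c_gt.Counter
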